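import Pool.Agent.Helper57.SI.Stmts

namespace Pool.Agent.Helper17.SI

open Finset

theorem fj_icc (f : ℤ → ℝ) (hf : ∀ k, f (-k) = f k) (K : ℕ) :
    ∑ k ∈ Finset.Icc (-(K : ℤ)) (K : ℤ), f k =
      f 0 + 2 * ∑ k ∈ Finset.range K, f ((k : ℤ) + 1) := by
  induction K with
  | zero => simp
  | succ K ih =>
    have h1 : Finset.Icc (-((K + 1 : ℕ) : ℤ)) ((K + 1 : ℕ) : ℤ) =
        insert (-((K : ℤ) + 1)) (insert ((K : ℤ) + 1) (Finset.Icc (-(K : ℤ)) (K : ℤ))) := by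
      ext k
      simp only [Finset.mem_Icc, Finset.mem_insert]
      push_cast
      omega
    have h2 : ((K : ℤ) + 1) ∉ Finset.Icc (-(K : ℤ)) (K : ℤ) := by
      simp only [Finset.mem_Icc]
      omega
    have h3 : (-((K : ℤ) + 1)) ∉ insert ((K : ℤ) + 1) (Finset.Icc (-(K : ℤ)) (K : ℤ)) := by
      simp only [Finset.mem_Icc, Finset.mem_insert]
      omega
    rw [h1, Finset.sum_insert h3, Finset.sum_insert h2, ih, hf, Finset.sum_range_succ]
    ring

theorem fj_sq (x : ℝ) (K : ℕ) :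
    (K : ℝ) + 2 * ∑ k ∈ Finset.range K, ((K : ℝ) - ((k : ℝ) + 1)) * Real.cos (((k : ℝ) + 1) * x) =
      (∑ j ∈ Finset.range K, Real.cos ((j : ℝ) * x)) ^ 2 +
      (∑ j ∈ Finset.range K, Real.sin ((j : ℝ) * x)) ^ 2 := by
  induction K with
  | zero => simp
  | succ K ih =>
    have h1 : ∑ k ∈ Finset.range (K + 1),
        (((K + 1 : ℕ) : ℝ) - ((k : ℝ) + 1)) * Real.cos (((k : ℝ) + 1) * x) =
        ∑ k ∈ Finset.range K, ((K : ℝ) - ((k : ℝ) + 1)) * Real.cos (((k : ℝ) + 1) * x) +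
        ∑ k ∈ Finset.range K, Real.cos (((k : ℝ) + 1) * x) := by
      rw [Finset.sum_range_succ, ← Finset.sum_add_distrib]
      have h : (((K + 1 : ℕ) : ℝ) - ((K : ℝ) + 1)) * Real.cos (((K : ℝ) + 1) * x) = 0 := by
        push_cast
        ring
      rw [h, add_zero]
      refine Finset.sum_congr rfl fun k _ => ?_
      push_cast
      ring
    have h2 : (∑ j ∈ Finset.range K, Real.cos ((j : ℝ) * x)) * Real.cos ((K : ℝ) * x) +
        (∑ j ∈ Finset.range K, Real.sin ((j : ℝ) * x)) * Real.sin ((K : ℝ) * x) =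
        ∑ k ∈ Finset.range K, Real.cos (((k : ℝ) + 1) * x) := by
      rw [Finset.sum_mul, Finset.sum_mul, ← Finset.sum_add_distrib,
        ← Finset.sum_range_reflect (fun k : ℕ => Real.cos (((k : ℝ) + 1) * x)) K]
      refine Finset.sum_congr rfl fun j hj => ?_
      have hj' : j < K := Finset.mem_range.mp hj
      have hc : ((K - 1 - j : ℕ) : ℝ) + 1 = (K : ℝ) - (j : ℝ) := by
        have : (K - 1 - j) + 1 + j = K := by omega
        have h4 : (((K - 1 - j) + 1 + j : ℕ) : ℝ) = (K : ℝ) := by rw [this]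
        push_cast at h4
        linarith
      rw [hc, show ((K : ℝ) - (j : ℝ)) * x = (K : ℝ) * x - (j : ℝ) * x by ring, Real.cos_sub]
      ring
    have h3 := Real.sin_sq_add_cos_sq ((K : ℝ) * x)
    rw [h1, Finset.sum_range_succ, Finset.sum_range_succ, ← h2]
    have h5 : ((K + 1 : ℕ) : ℝ) = (K : ℝ) + 1 := by push_cast; ring
    rw [h5]
    nlinarith [ih, h3]

theorem st_FJ0 : Pool.Agent.Helper57.SI.ST_FJ0 := by
  intro K x hK
  have hK0 : (0 : ℝ) < K := by exact_mod_cast hK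
  have h1 : (K : ℝ) * Pool.Agent.Helper57.SI.fej K x =
      ∑ k ∈ Finset.Icc (-(K : ℤ)) (K : ℤ), ((K : ℝ) - |(k : ℝ)|) * Real.cos ((k : ℝ) * x) := by
    unfold Pool.Agent.Helper57.SI.fej
    rw [Finset.mul_sum]
    refine Finset.sum_congr rfl fun k _ => ?_
    field_simp
  have h2 := fj_icc (fun k : ℤ => ((K : ℝ) - |(k : ℝ)|) * Real.cos ((k : ℝ) * x)) (by
    intro k
    simp only [Int.cast_neg, abs_neg, neg_mul, Real.cos_neg]) K
  have h3 : ∑ k ∈ Finset.range K,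
      ((K : ℝ) - |(((k : ℤ) + 1 : ℤ) : ℝ)|) * Real.cos ((((k : ℤ) + 1 : ℤ) : ℝ) * x) =
      ∑ k ∈ Finset.range K, ((K : ℝ) - ((k : ℝ) + 1)) * Real.cos (((k : ℝ) + 1) * x) := by
    refine Finset.sum_congr rfl fun k _ => ?_
    have h4 : ((((k : ℤ) + 1 : ℤ) : ℝ)) = (k : ℝ) + 1 := by push_cast; ring
    rw [h4, abs_of_nonneg (by positivity)]
  have h5 : (K : ℝ) * Pool.Agent.Helper57.SI.fej K x =
      (∑ j ∈ Finset.range K, Real.cos ((j : ℝ) * x)) ^ 2 +
      (∑ j ∈ Finset.range K, Real.sin ((j : ℝ) * x)) ^ 2 := by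
    rw [h1, h2, ← fj_sq x K]
    simp only [h3]
    simp
  have h6 : 0 ≤ (K : ℝ) * Pool.Agent.Helper57.SI.fej K x := by
    rw [h5]
    positivity
  exact nonneg_of_mul_nonneg_right h6 hK0

end Pool.Agent.Helper17.SI
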