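import Pool.Agent.Helper57.SI.Stmts

namespace Pool.Agent.Helper17.SI

theorem sob_abs (r : ℝ) : |r| ≤ Real.exp r + Real.exp (-r) := by
  rcases abs_cases r with ⟨h, _⟩ | ⟨h, _⟩
  · rw [h]
    have h1 := Real.add_one_le_exp r
    have h2 := Real.exp_pos (-r)
    linarith
  · rw [h]
    have h1 := Real.add_one_le_exp (-r)
    have h2 := Real.exp_pos r
    linarith

theorem st_SOB : Pool.Agent.Helper57.SI.ST_SOB := by
  intro R R' l hl hR hR' t
  have cR : Continuous R := continuous_iff_continuousAt.mpr fun s => (hR s).continuousAt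
  have hd : ∀ s ∈ Set.uIcc t (t + 1), HasDerivAt (fun s => (t + 1 - s) * Real.exp (l * R s))
      (-Real.exp (l * R s) + (t + 1 - s) * (Real.exp (l * R s) * (l * R' s))) s := by
    intro s _
    have h1 : HasDerivAt (fun s : ℝ => t + 1 - s) (-1) s := by
      simpa using (hasDerivAt_id s).const_sub (t + 1)
    have h2 : HasDerivAt (fun s => Real.exp (l * R s)) (Real.exp (l * R s) * (l * R' s)) s :=
      ((hR s).const_mul l).exp
    have h3 := h1.mul h2
    refine h3.congr_deriv ?_
    ring
  have hc : Continuous fun s => -Real.exp (l * R s) +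
      (t + 1 - s) * (Real.exp (l * R s) * (l * R' s)) := by fun_prop
  have hi := intervalIntegral.integral_eq_sub_of_hasDerivAt hd (hc.intervalIntegrable _ _)
  have h0 : Real.exp (l * R t) = ∫ s in t..(t + 1), (Real.exp (l * R s) -
      (t + 1 - s) * (Real.exp (l * R s) * (l * R' s))) := by
    have h4 : (∫ s in t..(t + 1), (Real.exp (l * R s) -
        (t + 1 - s) * (Real.exp (l * R s) * (l * R' s)))) =
        -∫ s in t..(t + 1), (-Real.exp (l * R s) +
        (t + 1 - s) * (Real.exp (l * R s) * (l * R' s))) := by
      rw [← intervalIntegral.integral_neg]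
      refine intervalIntegral.integral_congr fun s _ => ?_
      ring
    rw [h4, hi]
    simp
  rw [h0]
  refine intervalIntegral.integral_mono_on (by linarith) ?_ ?_ ?_
  · exact Continuous.intervalIntegrable (by fun_prop) _ _
  · exact Continuous.intervalIntegrable (by fun_prop) _ _
  · intro s hs
    have e1 : Real.exp (l * R s + R' s) = Real.exp (l * R s) * Real.exp (R' s) := Real.exp_add _ _
    have e2 : Real.exp (l * R s - R' s) = Real.exp (l * R s) * Real.exp (-R' s) := by
      rw [sub_eq_add_neg, Real.exp_add]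
    have hE := Real.exp_pos (l * R s)
    have ha := sob_abs (R' s)
    have hb : -((t + 1 - s) * R' s) ≤ |R' s| := by
      have h5 : |(t + 1 - s) * R' s| ≤ |R' s| := by
        rw [abs_mul, abs_of_nonneg (by linarith [hs.2])]
        have : t + 1 - s ≤ 1 := by linarith [hs.1]
        nlinarith [abs_nonneg (R' s)]
      linarith [neg_abs_le ((t + 1 - s) * R' s)]
    have hf : -((t + 1 - s) * R' s) ≤ Real.exp (R' s) + Real.exp (-R' s) := le_trans hb ha
    have hg := mul_le_mul_of_nonneg_left hf (mul_pos hl hE).le
    rw [e1, e2]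
    nlinarith [hg]

end Pool.Agent.Helper17.SI
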